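import Pool.Agent.Helper24.AB.PHI.Goals

/-!
MP_1ef41b_an, project AB, packet QF: facts on `f(y) = ∫ (1-τ²) e^{yτ} dτ` and `q = f'/f`.
-/

open MeasureTheory Set Filter Topology
open scoped ContDiff

noncomputable section

namespace Pool.Agent.Helper16.AB.QF

open Pool.Agent.Helper24.AB

/-- moments -/
def mk (k : ℕ) (y : ℝ) : ℝ := ∫ τ in (-1 : ℝ)..1, (1 - τ ^ 2) * τ ^ k * Real.exp (y * τ)

theorem cont (k : ℕ) (y : ℝ) : Continuous fun τ : ℝ => (1 - τ ^ 2) * τ ^ k * Real.exp (y * τ) := by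
  fun_prop

theorem hasDerivAt_mk (k : ℕ) (y : ℝ) : HasDerivAt (mk k) (mk (k + 1) y) y := by
  have h := intervalIntegral.hasDerivAt_integral_of_dominated_loc_of_deriv_le
    (μ := volume) (a := (-1 : ℝ)) (b := 1)
    (F := fun x τ => (1 - τ ^ 2) * τ ^ k * Real.exp (x * τ))
    (F' := fun x τ => (1 - τ ^ 2) * τ ^ (k + 1) * Real.exp (x * τ))
    (x₀ := y) (bound := fun _ => Real.exp (|y| + 1)) (Metric.ball_mem_nhds y one_pos)
    (Eventually.of_forall fun x => (cont k x).aestronglyMeasurable)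
    ((cont k y).intervalIntegrable _ _)
    ((cont (k + 1) y).aestronglyMeasurable)
    (by
      refine Eventually.of_forall fun τ hτ x hx => ?_
      rw [uIoc_of_le (by norm_num : (-1 : ℝ) ≤ 1)] at hτ
      have hτ1 : |τ| ≤ 1 := abs_le.2 ⟨hτ.1.le, hτ.2⟩
      have hx1 : |x| ≤ |y| + 1 := by
        have h1 : |x - y| < 1 := by simpa [Real.dist_eq] using hx
        have h2 := abs_sub_abs_le_abs_sub x y
        linarith
      rw [norm_mul, norm_mul, norm_pow, Real.norm_eq_abs, Real.norm_eq_abs, Real.norm_eq_abs,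
        Real.abs_exp]
      have h3 : |1 - τ ^ 2| ≤ 1 := by
        rw [abs_le]
        have : τ ^ 2 ≤ 1 := by
          rw [← sq_abs]; nlinarith [abs_nonneg τ]
        constructor <;> nlinarith [sq_nonneg τ]
      have h4 : |τ| ^ (k + 1) ≤ 1 := pow_le_one₀ (abs_nonneg _) hτ1
      have h5 : Real.exp (x * τ) ≤ Real.exp (|y| + 1) := by
        apply Real.exp_le_exp.2
        calc x * τ ≤ |x * τ| := le_abs_self _
          _ = |x| * |τ| := abs_mul _ _
          _ ≤ (|y| + 1) * 1 := by gcongr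
          _ = |y| + 1 := mul_one _
      calc |1 - τ ^ 2| * |τ| ^ (k + 1) * Real.exp (x * τ)
          ≤ 1 * 1 * Real.exp (|y| + 1) := by gcongr
        _ = Real.exp (|y| + 1) := by ring)
    (continuous_const.intervalIntegrable _ _)
    (by
      refine Eventually.of_forall fun τ _ x _ => ?_
      have h1 : HasDerivAt (fun x : ℝ => Real.exp (x * τ)) (Real.exp (x * τ) * τ) x := by
        have := ((hasDerivAt_id x).mul_const τ).exp
        simpa using this
      have h2 : HasDerivAt (fun x : ℝ => (1 - τ ^ 2) * τ ^ k * Real.exp (x * τ))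
        ((1 - τ ^ 2) * τ ^ k * (Real.exp (x * τ) * τ)) x := h1.const_mul ((1 - τ ^ 2) * τ ^ k)
      refine h2.congr_deriv ?_
      ring)
  exact h.2

theorem deriv_mk (k : ℕ) : deriv (mk k) = mk (k + 1) :=
  funext fun y => (hasDerivAt_mk k y).deriv

theorem diff_mk (k : ℕ) : Differentiable ℝ (mk k) := fun y => (hasDerivAt_mk k y).differentiableAt

theorem contDiff_mk_nat (n : ℕ) : ∀ k, ContDiff ℝ n (mk k) := by
  induction n with
  | zero =>
    intro k
    exact contDiff_zero.2 (diff_mk k).continuous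
  | succ n ih =>
    intro k
    rw [Nat.cast_succ, contDiff_succ_iff_deriv]
    refine ⟨diff_mk k, fun h => absurd h (by simp), ?_⟩
    rw [deriv_mk]
    exact ih (k + 1)

theorem contDiff_mk (k : ℕ) : ContDiff ℝ ∞ (mk k) :=
  contDiff_infty.2 fun n => contDiff_mk_nat n k

theorem fy_eq : fy = mk 0 := by
  funext y
  simp [fy, mk]

theorem deriv_fy : deriv fy = mk 1 := by rw [fy_eq, deriv_mk]

theorem ii (g : ℝ → ℝ) (hg : Continuous g) : IntervalIntegrable g volume (-1) 1 :=
  hg.intervalIntegrable _ _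

theorem mk0_pos (y : ℝ) : 0 < mk 0 y := by
  unfold mk
  apply intervalIntegral.intervalIntegral_pos_of_pos_on ((cont 0 y).intervalIntegrable _ _) _
    (by norm_num)
  intro τ hτ
  have : τ ^ 2 < 1 := by nlinarith [hτ.1, hτ.2]
  have := Real.exp_pos (y * τ)
  simp only [pow_zero, mul_one]
  apply mul_pos (by linarith) this

theorem lin3 (a b c y : ℝ) : a * mk 0 y + b * mk 1 y + c * mk 2 y =
    ∫ τ in (-1 : ℝ)..1, (1 - τ ^ 2) * (a + b * τ + c * τ ^ 2) * Real.exp (y * τ) := by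
  have i0 : IntervalIntegrable (fun τ : ℝ => a * ((1 - τ ^ 2) * τ ^ 0 * Real.exp (y * τ)))
      volume (-1) 1 := by apply Continuous.intervalIntegrable; fun_prop
  have i1 : IntervalIntegrable (fun τ : ℝ => b * ((1 - τ ^ 2) * τ ^ 1 * Real.exp (y * τ)))
      volume (-1) 1 := by apply Continuous.intervalIntegrable; fun_prop
  have i2 : IntervalIntegrable (fun τ : ℝ => c * ((1 - τ ^ 2) * τ ^ 2 * Real.exp (y * τ)))
      volume (-1) 1 := by apply Continuous.intervalIntegrable; fun_prop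
  have i01 : IntervalIntegrable (fun τ : ℝ => a * ((1 - τ ^ 2) * τ ^ 0 * Real.exp (y * τ)) +
      b * ((1 - τ ^ 2) * τ ^ 1 * Real.exp (y * τ))) volume (-1) 1 := by
    apply Continuous.intervalIntegrable; fun_prop
  unfold mk
  rw [← intervalIntegral.integral_const_mul, ← intervalIntegral.integral_const_mul,
    ← intervalIntegral.integral_const_mul, ← intervalIntegral.integral_add i0 i1,
    ← intervalIntegral.integral_add i01 i2]
  congr 1
  funext τ
  ring

theorem mk_sub_pos (y : ℝ) : 0 < mk 0 y - mk 1 y := by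
  have e := lin3 1 (-1) 0 y
  have h : 0 < ∫ τ in (-1 : ℝ)..1, (1 - τ ^ 2) * (1 + -1 * τ + 0 * τ ^ 2) * Real.exp (y * τ) := by
    apply intervalIntegral.intervalIntegral_pos_of_pos_on _ _ (by norm_num)
    · apply Continuous.intervalIntegrable; fun_prop
    intro τ hτ
    have h1 : τ ^ 2 < 1 := by nlinarith [hτ.1, hτ.2]
    exact mul_pos (mul_pos (by linarith) (by linarith [hτ.2])) (Real.exp_pos (y * τ))
  linarith

theorem mk_add_pos (y : ℝ) : 0 < mk 0 y + mk 1 y := by
  have e := lin3 1 1 0 y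
  have h : 0 < ∫ τ in (-1 : ℝ)..1, (1 - τ ^ 2) * (1 + 1 * τ + 0 * τ ^ 2) * Real.exp (y * τ) := by
    apply intervalIntegral.intervalIntegral_pos_of_pos_on _ _ (by norm_num)
    · apply Continuous.intervalIntegrable; fun_prop
    intro τ hτ
    have h1 : τ ^ 2 < 1 := by nlinarith [hτ.1, hτ.2]
    exact mul_pos (mul_pos (by linarith) (by linarith [hτ.1])) (Real.exp_pos (y * τ))
  linarith

theorem fy_even (y : ℝ) : fy (-y) = fy y := by
  unfold fy
  have h := intervalIntegral.integral_comp_neg (a := (-1 : ℝ)) (b := 1)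
    (fun τ : ℝ => (1 - τ ^ 2) * Real.exp (y * τ))
  rw [neg_neg] at h
  rw [← h]
  congr 1
  funext τ
  rw [neg_sq]
  congr 2
  ring

theorem deriv_fy_zero : deriv fy 0 = 0 := by
  have h : HasDerivAt fy (mk 1 0) 0 := by rw [fy_eq]; exact hasDerivAt_mk 0 0
  have h2 : HasDerivAt (fun y => fy (-y)) (mk 1 0 * (-1)) 0 := by
    have h3 : HasDerivAt fy (mk 1 0) (-0) := by rw [neg_zero]; exact h
    exact h3.comp 0 (hasDerivAt_neg 0)
  have h3 : (fun y => fy (-y)) = fy := funext fy_even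
  rw [h3] at h2
  have := h.unique h2
  rw [h.deriv]
  linarith

/-- Cauchy-Schwarz -/
theorem cs (y : ℝ) : mk 1 y ^ 2 ≤ mk 2 y * mk 0 y := by
  have h0 := mk0_pos y
  set t := mk 1 y / mk 0 y with ht
  have key : 0 ≤ mk 2 y - 2 * t * mk 1 y + t ^ 2 * mk 0 y := by
    have e : mk 2 y - 2 * t * mk 1 y + t ^ 2 * mk 0 y =
        ∫ τ in (-1 : ℝ)..1, (1 - τ ^ 2) * (t ^ 2 + (-(2 * t)) * τ + 1 * τ ^ 2) *
          Real.exp (y * τ) := by
      rw [← lin3]; ring
    rw [e]
    apply intervalIntegral.integral_nonneg (by norm_num)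
    intro τ hτ
    have h1 : τ ^ 2 ≤ 1 := by nlinarith [hτ.1, hτ.2]
    have h2 := (Real.exp_pos (y * τ)).le
    have h3 : t ^ 2 + (-(2 * t)) * τ + 1 * τ ^ 2 = (τ - t) ^ 2 := by ring
    rw [h3]
    exact mul_nonneg (mul_nonneg (by linarith) (sq_nonneg _)) h2
  have h1 : t * mk 0 y = mk 1 y := by rw [ht]; field_simp
  nlinarith

/-- integration by parts -/
theorem ibp (y : ℝ) : y * (mk 0 y - mk 2 y) = 4 * mk 1 y := by
  have h : ∫ τ in (-1 : ℝ)..1, (1 - τ ^ 2) * (y + (-4) * τ + (-y) * τ ^ 2) *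
      Real.exp (y * τ) = 0 := by
    rw [intervalIntegral.integral_eq_sub_of_hasDerivAt
      (f := fun τ => (1 - τ ^ 2) ^ 2 * Real.exp (y * τ))]
    · norm_num
    · intro τ _
      have h1 : HasDerivAt (fun τ : ℝ => Real.exp (y * τ)) (Real.exp (y * τ) * y) τ := by
        have := ((hasDerivAt_id τ).const_mul y).exp
        simpa using this
      have h3 : HasDerivAt (fun τ : ℝ => 1 - τ ^ 2) (-(2 * τ)) τ := by
        have := (hasDerivAt_pow 2 τ).const_sub 1
        simpa using this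
      have h2 : HasDerivAt (fun τ : ℝ => (1 - τ ^ 2) ^ 2)
          (2 * (1 - τ ^ 2) ^ (2 - 1) * (-(2 * τ))) τ := h3.pow 2
      have h4 : HasDerivAt (fun τ : ℝ => (1 - τ ^ 2) ^ 2 * Real.exp (y * τ)) _ τ := h2.mul h1
      refine h4.congr_deriv ?_
      simp only [Nat.add_one_sub_one, pow_one]
      ring
    · apply Continuous.intervalIntegrable
      fun_prop
  rw [← lin3] at h
  linarith

theorem qf_eq (y : ℝ) : qf y = mk 1 y / mk 0 y := by
  unfold qf
  rw [deriv_fy, fy_eq]

theorem hasDerivAt_qf (y : ℝ) : HasDerivAt qf (mk 2 y / mk 0 y - qf y ^ 2) y := by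
  have h0 := (mk0_pos y).ne'
  have h := (hasDerivAt_mk 1 y).div (hasDerivAt_mk 0 y) h0
  have e : qf = mk 1 / mk 0 := funext fun y => by rw [qf_eq]; rfl
  have e2 := qf_eq y
  rw [← e] at h
  refine h.congr_deriv ?_
  rw [e2]
  field_simp

theorem deriv_qf (y : ℝ) : deriv qf y = mk 2 y / mk 0 y - qf y ^ 2 := (hasDerivAt_qf y).deriv

theorem deriv_qf_nonneg (y : ℝ) : 0 ≤ deriv qf y := by
  rw [deriv_qf, qf_eq]
  have h0 := mk0_pos y
  have h1 := cs y
  rw [div_pow, div_sub_div _ _ h0.ne' (pow_pos h0 2).ne']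
  apply div_nonneg _ (by positivity)
  nlinarith

theorem riccati (y : ℝ) (hy : 0 < y) : deriv qf y = 1 - 4 * qf y / y - qf y ^ 2 := by
  rw [deriv_qf]
  have h0 := mk0_pos y
  have h1 := ibp y
  have h2 : mk 2 y / mk 0 y = 1 - 4 * qf y / y := by
    rw [qf_eq]
    field_simp
    linarith
  rw [h2]

/-- closed form -/
theorem closed (y : ℝ) (hy : y ≠ 0) : mk 0 y = 4 * (y * Real.cosh y - Real.sinh y) / y ^ 3 := by
  unfold mk
  rw [intervalIntegral.integral_eq_sub_of_hasDerivAt
      (f := fun τ => (1 - τ ^ 2) * Real.exp (y * τ) / y + 2 * τ * Real.exp (y * τ) / y ^ 2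
        - 2 * Real.exp (y * τ) / y ^ 3)]
  · rw [Real.cosh_eq, Real.sinh_eq]
    field_simp
    ring_nf
  · intro τ _
    have h1 : HasDerivAt (fun τ : ℝ => Real.exp (y * τ)) (Real.exp (y * τ) * y) τ := by
      have := ((hasDerivAt_id τ).const_mul y).exp
      simpa using this
    have h3 : HasDerivAt (fun τ : ℝ => 1 - τ ^ 2) (-(2 * τ)) τ := by
      have := (hasDerivAt_pow 2 τ).const_sub 1
      simpa using this
    have h4 : HasDerivAt (fun τ : ℝ => 2 * τ) 2 τ := by
      simpa using (hasDerivAt_id τ).const_mul (2 : ℝ)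
    have h : HasDerivAt (fun τ => (1 - τ ^ 2) * Real.exp (y * τ) / y +
        2 * τ * Real.exp (y * τ) / y ^ 2 - 2 * Real.exp (y * τ) / y ^ 3) _ τ :=
      (((h3.mul h1).div_const y).add ((h4.mul h1).div_const (y ^ 2))).sub
      ((h1.const_mul 2).div_const (y ^ 3))
    refine h.congr_deriv ?_
    simp only [pow_zero, mul_one]
    field_simp
    ring
  · exact (cont 0 y).intervalIntegrable _ _

theorem closed' (y : ℝ) (hy : 0 < y) :
    mk 1 y = 4 * Real.sinh y / y ^ 2 - 12 * (y * Real.cosh y - Real.sinh y) / y ^ 4 := by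
  have h1 : HasDerivAt (mk 0) (mk 1 y) y := hasDerivAt_mk 0 y
  have h2 : HasDerivAt (fun y => 4 * (y * Real.cosh y - Real.sinh y) / y ^ 3)
      (4 * Real.sinh y / y ^ 2 - 12 * (y * Real.cosh y - Real.sinh y) / y ^ 4) y := by
    have h3 : HasDerivAt (fun y => 4 * (y * Real.cosh y - Real.sinh y) / y ^ 3) _ y :=
      ((((hasDerivAt_id y).mul (Real.hasDerivAt_cosh y)).sub
      (Real.hasDerivAt_sinh y)).const_mul 4).div (hasDerivAt_pow 3 y) (pow_pos hy 3).ne'
    refine h3.congr_deriv ?_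
    simp only [id, Nat.cast_ofNat, Pi.sub_apply, Pi.mul_apply]
    field_simp
    ring
  have h3 : (mk 0) =ᶠ[𝓝 y] (fun y => 4 * (y * Real.cosh y - Real.sinh y) / y ^ 3) := by
    filter_upwards [eventually_ne_nhds hy.ne'] with z hz using closed z hz
  exact h1.unique (h2.congr_of_eventuallyEq h3)

theorem Q_sq (y : ℝ) (hy : 0 < y) : 1 + y ^ 2 ≤ (y * qf y + 2) ^ 2 := by
  have h0 := mk0_pos y
  have hA : 0 < y * Real.cosh y - Real.sinh y := by
    rw [closed y hy.ne'] at h0
    by_contra hc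
    push Not at hc
    have : 4 * (y * Real.cosh y - Real.sinh y) / y ^ 3 ≤ 0 :=
      div_nonpos_of_nonpos_of_nonneg (by linarith) (by positivity)
    linarith
  have hS : y ≤ Real.sinh y := Real.self_le_sinh_iff.2 hy.le
  have hCS := Real.cosh_sq y
  have hm0 := closed y hy.ne'
  have hm1 := closed' y hy
  have hqe := qf_eq y
  generalize Real.cosh y = C at *
  generalize Real.sinh y = S at *
  have hq : y * qf y + 2 = ((y ^ 2 + 1) * S - y * C) / (y * C - S) := by
    rw [hqe, hm1, hm0]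
    have hA' := hA.ne'
    rw [eq_div_iff hA']
    field_simp
    ring
  rw [hq, div_pow, le_div_iff₀ (by positivity)]
  have e : ((y ^ 2 + 1) * S - y * C) ^ 2 - (1 + y ^ 2) * (y * C - S) ^ 2 =
      y ^ 2 * (S ^ 2 - y ^ 2) := by
    have : C ^ 2 = S ^ 2 + 1 := hCS
    linear_combination (-y ^ 4) * this
  have : 0 ≤ y ^ 2 * (S ^ 2 - y ^ 2) := by
    apply mul_nonneg (sq_nonneg _)
    nlinarith
  linarith

theorem diff_qf : Differentiable ℝ qf := fun y => (hasDerivAt_qf y).differentiableAt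

theorem qf_zero : qf 0 = 0 := by unfold qf; rw [deriv_fy_zero, zero_div]

theorem qf_nonneg (y : ℝ) (hy : 0 ≤ y) : 0 ≤ qf y := by
  have := monotone_of_deriv_nonneg diff_qf deriv_qf_nonneg hy
  rwa [qf_zero] at this

theorem one_sub (y : ℝ) (hy : 0 < y) : 1 - qf y ≤ 2 / y := by
  have h1 := Q_sq y hy
  have h2 : 0 < y * qf y + 2 := by
    have := mul_nonneg hy.le (qf_nonneg y hy.le)
    linarith
  have h3 : y ≤ y * qf y + 2 := by nlinarith
  rw [le_div_iff₀ hy]
  linarith

theorem qf_thm : S_QF := by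
  refine ⟨by rw [fy_eq]; exact contDiff_mk 0, fun y => by rw [fy_eq]; exact mk0_pos y, fy_even,
    qf_zero, ?_, qf_nonneg, deriv_qf_nonneg, ?_, one_sub, ?_, riccati⟩
  · intro y
    rw [qf_eq, abs_lt]
    have h0 := mk0_pos y
    constructor
    · rw [lt_div_iff₀ h0]
      linarith [mk_add_pos y]
    · rw [div_lt_one h0]
      linarith [mk_sub_pos y]
  · intro y hy
    rw [riccati y hy]
    have h1 := Q_sq y hy
    have e : y ^ 2 * (1 - 4 * qf y / y - qf y ^ 2) = y ^ 2 + 4 - (y * qf y + 2) ^ 2 := by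
      field_simp
      ring
    rw [e]
    linarith
  · intro y hy
    have h1 := one_sub y (by linarith)
    have h2 : 2 / y ≤ 1 / 2 := by
      rw [div_le_div_iff₀ (by linarith) (by norm_num)]
      linarith
    linarith

end Pool.Agent.Helper16.AB.QF

namespace Pool.Agent.Helper16.AB

/-- packet QF -/
theorem qf : Pool.Agent.Helper24.AB.S_QF := QF.qf_thm

end Pool.Agent.Helper16.AB
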